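import Mathlib

/-!
# Avoiding coincidences of faces with prescribed dimensions

For `r` pairwise disjoint faces of a simplex, at least `q` of which have dimension at most `m`, a
coincidence point can be avoided as soon as `r (m+1) ≤ (r-1) d + (q-1)`.
The map is `f = (g, e_{m+2} + ε φ)` with `g` a generic linear map to `ℝ^{d-1}`, `φ` a generic linear
function and `e_{m+2}` the elementary symmetric polynomial of degree `m+2` in the barycentric
coordinates, which vanishes exactly on the `m`-skeleton.
-/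

open scoped BigOperators
open Finset

namespace Pool.Agent.H7.TV

/-! ## Definitions used in the statement -/

/-- The standard simplex `Δ^N`, with vertices indexed by `Fin (N + 1)` (barycentric coordinates). -/
abbrev Simplex (N : ℕ) : Type := stdSimplex ℝ (Fin (N + 1))

/-- The closed face of `Δ^N` with vertex set `σ`. -/
def face {N : ℕ} (σ : Finset (Fin (N + 1))) : Set (Simplex N) :=
  {x | ∀ p, p ∉ σ → (x : Fin (N + 1) → ℝ) p = 0}

/-- The dimension of the face with vertex set `σ`: number of vertices minus one. -/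
def faceDim {N : ℕ} (σ : Finset (Fin (N + 1))) : ℤ := (σ.card : ℤ) - 1

/-- `σ₁, …, σ_r` is a Tverberg partition for the continuous map `f : Δ^N → ℝ^d`: the faces are
nonempty, pairwise disjoint, and their images have a common point. -/
def IsTverbergPartition {N d r : ℕ} (f : C(Simplex N, EuclideanSpace ℝ (Fin d)))
    (σ : Fin r → Finset (Fin (N + 1))) : Prop :=
  (∀ i, (σ i).Nonempty) ∧ (∀ i j, i ≠ j → Disjoint (σ i) (σ j)) ∧
    (⋂ i, f '' face (σ i)).Nonempty

/-- The tuple `(D₁, …, D_r)` is Tverberg prescribable in dimension `d`. -/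
def Prescribable (d : ℕ) {r : ℕ} (D : Fin r → ℤ) : Prop :=
  ∃ N : ℕ, ∀ f : C(Simplex N, EuclideanSpace ℝ (Fin d)),
    ∃ σ : Fin r → Finset (Fin (N + 1)), IsTverbergPartition f σ ∧ ∀ i, faceDim (σ i) = D i

/-- The tuple `(D₁, …, D_r)` is strongly admissible for `d`. -/
def StronglyAdmissible (d : ℕ) {r : ℕ} (D : Fin r → ℤ) : Prop :=
  (∀ i, (((r : ℚ) - 1) / (r : ℚ)) * ((d : ℚ) - 1) ≤ (D i : ℚ) ∧ D i ≤ (d : ℤ)) ∧
    ∑ i, ((d : ℤ) - D i) ≤ (d : ℤ)

/-! ## Generic linear maps -/

abbrev Var (n d : ℕ) := Fin n × Option (Fin d)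

abbrev Row (r n d : ℕ) := (Fin r × Fin r × Option (Fin d)) ⊕ ((Fin r × Fin r) ⊕ Fin n)

/-- indicator of the class `a` -/
def ind {R : Type*} [CommRing R] {r n : ℕ} (κ : Fin n → Option (Fin r)) (a : Fin r) (p : Fin n) : R :=
  if κ p = some a then 1 else 0

def sysMat {R : Type*} [CommRing R] {r n d : ℕ} (Q : Finset (Fin r)) (κ : Fin n → Option (Fin r))
    (w : Var n d → R) : Matrix (Row r n d) (Fin n) R := fun ρ p =>
  match ρ with
  | Sum.inl (a, b, some l) => (ind κ a p - ind κ b p) * w (p, some l)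
  | Sum.inl (a, b, none) => if a ∈ Q ∧ b ∈ Q then (ind κ a p - ind κ b p) * w (p, none) else 0
  | Sum.inr (Sum.inl (a, b)) => ind κ a p - ind κ b p
  | Sum.inr (Sum.inr p') => if κ p' = none ∧ p = p' then 1 else 0

theorem sysMat_map {R S : Type*} [CommRing R] [CommRing S] (φ : R →+* S) {r n d : ℕ}
    (Q : Finset (Fin r)) (κ : Fin n → Option (Fin r)) (w : Var n d → R) :
    (sysMat Q κ w).map φ = sysMat Q κ (fun x => φ (w x)) := by
  ext ρ p
  rcases ρ with ⟨a, b, _ | l⟩ | ⟨a, b⟩ | p'
  · simp only [Matrix.map_apply, sysMat, ind]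
    split_ifs <;> simp
  · simp only [Matrix.map_apply, sysMat, ind]
    split_ifs <;> simp
  · simp only [Matrix.map_apply, sysMat, ind]
    split_ifs <;> simp
  · simp only [Matrix.map_apply, sysMat]
    split_ifs <;> simp

/-- the system has only the trivial solution -/
def Inj {r n d : ℕ} (Q : Finset (Fin r)) (κ : Fin n → Option (Fin r)) (w : Var n d → ℝ) : Prop :=
  ∀ c : Fin n → ℝ, (sysMat Q κ w).mulVec c = 0 → c = 0

theorem inj_iff_det {r n d : ℕ} (Q : Finset (Fin r)) (κ : Fin n → Option (Fin r)) (w : Var n d → ℝ) :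
    Inj Q κ w ↔ ((sysMat Q κ w).transpose * sysMat Q κ w).det ≠ 0 := by
  rw [Ne, ← Matrix.exists_mulVec_eq_zero_iff]
  constructor
  · rintro h ⟨v, hv0, hv⟩
    apply hv0
    apply h
    have := (Matrix.conjTranspose_mul_self_mulVec_eq_zero (sysMat Q κ w) v)
    rw [Matrix.conjTranspose_eq_transpose_of_trivial] at this
    exact this.1 hv
  · intro h c hc
    by_contra hne
    exact h ⟨c, hne, by rw [← Matrix.mulVec_mulVec, hc, Matrix.mulVec_zero]⟩

theorem exists_good (r n d : ℕ) :
    ∃ w : Var n d → ℝ, ∀ (Q : Finset (Fin r)) (κ : Fin n → Option (Fin r)),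
      (∃ w0 : Var n d → ℝ, Inj Q κ w0) → Inj Q κ w := by
  classical
  let X : Var n d → MvPolynomial (Var n d) ℝ := fun x => MvPolynomial.X x
  let P : Finset (Fin r) × (Fin n → Option (Fin r)) → MvPolynomial (Var n d) ℝ := fun qk =>
    ((sysMat qk.1 qk.2 X).transpose * sysMat qk.1 qk.2 X).det
  have hev : ∀ qk w, MvPolynomial.eval w (P qk)
      = ((sysMat qk.1 qk.2 w).transpose * sysMat qk.1 qk.2 w).det := by
    intro qk w
    simp only [P]
    rw [RingHom.map_det, RingHom.mapMatrix_apply, Matrix.map_mul, Matrix.transpose_map, sysMat_map]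
    simp [X]
  let G := (Finset.univ : Finset (Finset (Fin r) × (Fin n → Option (Fin r)))).filter
    (fun qk => ∃ w0 : Var n d → ℝ, Inj qk.1 qk.2 w0)
  have hne : (∏ qk ∈ G, P qk) ≠ 0 := by
    rw [Finset.prod_ne_zero_iff]
    intro qk hqk h0
    obtain ⟨w0, hw0⟩ := (Finset.mem_filter.1 hqk).2
    rw [inj_iff_det, ← hev, h0] at hw0
    exact hw0 (map_zero _)
  obtain ⟨w, hw⟩ : ∃ w : Var n d → ℝ, MvPolynomial.eval w (∏ qk ∈ G, P qk) ≠ 0 := by
    by_contra hcon
    push Not at hcon
    apply hne
    apply MvPolynomial.funext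
    intro w
    rw [hcon w, map_zero]
  refine ⟨w, fun Q κ h => ?_⟩
  rw [inj_iff_det]
  have := hev (Q, κ) w
  simp only at this
  rw [← this]
  rw [map_prod, Finset.prod_ne_zero_iff] at hw
  exact hw (Q, κ) (Finset.mem_filter.2 ⟨Finset.mem_univ _, h⟩)

theorem exists_map_of_card_le {α β : Type*} [DecidableEq α] [DecidableEq β] [Nonempty β]
    (s : Finset α) (t : Finset β) (h : s.card ≤ t.card) :
    ∃ f : α → β, (∀ p ∈ s, f p ∈ t) ∧ ∀ p ∈ s, ∀ p' ∈ s, f p = f p' → p = p' := by
  classical
  obtain ⟨e⟩ : Nonempty (s ↪ t) := Function.Embedding.nonempty_of_card_le (by simpa using h)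
  refine ⟨fun p => if hp : p ∈ s then (e ⟨p, hp⟩ : β) else Classical.arbitrary β, ?_, ?_⟩
  · intro p hp
    simp only [hp, dif_pos]
    exact (e ⟨p, hp⟩).2
  · intro p hp p' hp' heq
    simp only [hp, hp', dif_pos] at heq
    have := e.injective (Subtype.ext heq)
    exact congrArg Subtype.val this

theorem ite_aux (A B C : Prop) [Decidable A] [Decidable B] [Decidable C] (c : ℝ) :
    (if A ∧ C then c else 0) - (if B ∧ C then c else 0)
      = (((if A then (1 : ℝ) else 0) - if B then 1 else 0) * if C then 1 else 0) * c := by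
  by_cases hA : A <;> by_cases hB : B <;> by_cases hC : C <;> simp [hA, hB, hC]

theorem ite_aux' (A B : Prop) [Decidable A] [Decidable B] (c : ℝ) :
    (if A then c else 0) - (if B then c else 0)
      = ((if A then (1 : ℝ) else 0) - if B then 1 else 0) * c := by
  by_cases hA : A <;> by_cases hB : B <;> simp [hA, hB]

theorem special {r n d : ℕ} (m : ℕ) (Q : Finset (Fin r)) (hQ : Q.Nonempty)
    (κ : Fin n → Option (Fin r)) (hm : r * (m + 1) ≤ (r - 1) * (d + 1) + (Q.card - 1))
    (hκ : ∀ a, (univ.filter (fun p => κ p = some a)).card ≤ m + 1) :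
    ∃ w0 : Var n d → ℝ, Inj Q κ w0 := by
  classical
  obtain ⟨q0, hq0⟩ := hQ
  have hr : 1 ≤ r := by
    have := q0.2; omega
  obtain ⟨r', rfl⟩ : ∃ r', r = r' + 1 := ⟨r - 1, by omega⟩
  have hQc : Q.card ≤ r' + 1 := by
    simpa using Finset.card_le_univ Q
  have hQ1 : 1 ≤ Q.card := Finset.card_pos.2 ⟨q0, hq0⟩
  simp only [Nat.add_sub_cancel] at hm
  have hmd : m ≤ d := by
    by_contra hlt
    push Not at hlt
    have h1 : (r' + 1) * (d + 2) ≤ (r' + 1) * (m + 1) := Nat.mul_le_mul_left _ (by omega)
    have h2 : Q.card - 1 ≤ r' := by omega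
    nlinarith
  obtain ⟨c0, rfl⟩ : ∃ c0, d = m + c0 := ⟨d - m, by omega⟩
  -- the sets C a
  let C : Fin (r' + 1) → Finset (Fin (m + c0 + 1)) := fun a =>
    univ.filter (fun j => (a : ℕ) * c0 ≤ (j : ℕ) ∧ (j : ℕ) < ((a : ℕ) + 1) * c0)
  have hC : ∀ a, (C a).card ≤ c0 := by
    intro a
    calc (C a).card = ((C a).image (fun j : Fin (m + c0 + 1) => (j : ℕ))).card := by
          rw [Finset.card_image_of_injective _ Fin.val_injective]
      _ ≤ (Finset.Ico ((a : ℕ) * c0) (((a : ℕ) + 1) * c0)).card := by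
          apply Finset.card_le_card
          intro x hx
          obtain ⟨j, hj, rfl⟩ := Finset.mem_image.1 hx
          have := (Finset.mem_filter.1 hj).2
          simpa using this
      _ = c0 := by rw [Nat.card_Ico]; ring_nf; omega
  have hT : ∀ a, m + 1 ≤ ((C a)ᶜ).card := by
    intro a
    rw [Finset.card_compl, Fintype.card_fin]
    have := hC a
    omega
  have hF : ∀ a : Fin (r' + 1), ∃ f : Fin n → Fin (m + c0 + 1),
      (∀ p ∈ univ.filter (fun p => κ p = some a), f p ∈ (C a)ᶜ) ∧
      ∀ p ∈ univ.filter (fun p => κ p = some a), ∀ p' ∈ univ.filter (fun p => κ p = some a),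
        f p = f p' → p = p' := fun a =>
    exists_map_of_card_le _ _ ((hκ a).trans (hT a))
  choose F hF1 hF2 using hF
  let E : Finset (Fin (m + c0 + 1)) := univ.filter (fun j => (r' + 1) * c0 ≤ (j : ℕ))
  have hE : E.card ≤ (Q.erase q0).card := by
    rw [Finset.card_erase_of_mem hq0]
    calc E.card = (E.image (fun j : Fin (m + c0 + 1) => (j : ℕ))).card := by
          rw [Finset.card_image_of_injective _ Fin.val_injective]
      _ ≤ (Finset.Ico ((r' + 1) * c0) (m + c0 + 1)).card := by
          apply Finset.card_le_card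
          intro x hx
          obtain ⟨j, hj, rfl⟩ := Finset.mem_image.1 hx
          have := (Finset.mem_filter.1 hj).2
          have := j.2
          simp only [Finset.mem_Ico]
          omega
      _ ≤ Q.card - 1 := by
          rw [Nat.card_Ico]
          have : (r' + 1) * (m + 1) + (r' + 1) * c0 = (r' + 1) * (m + c0 + 1) := by ring
          have h3 : (r' + 1) * (m + c0 + 1) = r' * (m + c0 + 1) + (m + c0 + 1) := by ring
          omega
  obtain ⟨ρ, hρ1, hρ2⟩ := exists_map_of_card_le E (Q.erase q0) hE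
  let ι : Fin n → Fin (m + c0 + 1) := fun p => match κ p with
    | some a => F a p
    | none => 0
  have hι : ∀ p a, κ p = some a → ι p = F a p := by
    intro p a h
    simp only [ι, h]
  have hιC : ∀ p a, κ p = some a → ι p ∉ C a := by
    intro p a h
    rw [hι p a h]
    exact Finset.mem_compl.1 (hF1 a p (Finset.mem_filter.2 ⟨mem_univ _, h⟩))
  have hιinj : ∀ p p' a, κ p = some a → κ p' = some a → ι p = ι p' → p = p' := by
    intro p p' a h h' heq
    rw [hι p a h, hι p' a h'] at heq
    exact hF2 a p (Finset.mem_filter.2 ⟨mem_univ _, h⟩) p' (Finset.mem_filter.2 ⟨mem_univ _, h'⟩) heq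
  refine ⟨fun x => match x with
    | (p, some l) => if ι p = Fin.castSucc l then 1 else 0
    | (p, none) => if ι p ∈ E ∧ κ p = some (ρ (ι p)) then 1 else 0, ?_⟩
  intro c hc
  have hrow : ∀ ρ' : Row (r' + 1) n (m + c0), ∑ p, sysMat Q κ (fun x : Var n (m + c0) => match x with
    | (p, some l) => if ι p = Fin.castSucc l then (1 : ℝ) else 0
    | (p, none) => if ι p ∈ E ∧ κ p = some (ρ (ι p)) then 1 else 0) ρ' p * c p = 0 := by
    intro ρ'
    have := congrFun hc ρ'
    simpa [Matrix.mulVec, dotProduct] using this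
  let y : Fin (r' + 1) → Fin (m + c0 + 1) → ℝ := fun a j =>
    ∑ p, if κ p = some a ∧ ι p = j then c p else 0
  have hy1 : ∀ a b (l : Fin (m + c0)), y a l.castSucc = y b l.castSucc := by
    intro a b l
    have := hrow (Sum.inl (a, b, some l))
    simp only [sysMat, ind] at this
    refine sub_eq_zero.1 ?_
    simp only [y]
    rw [← Finset.sum_sub_distrib]
    refine (Finset.sum_congr rfl ?_).trans this
    intro p _
    exact ite_aux (κ p = some a) (κ p = some b) (ι p = l.castSucc) (c p)
  have hysum : ∀ a, ∑ j, y a j = ∑ p, (if κ p = some a then c p else 0) := by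
    intro a
    simp only [y]
    rw [Finset.sum_comm]
    apply Finset.sum_congr rfl
    intro p _
    by_cases h1 : κ p = some a <;> simp [h1]
  have hy2 : ∀ a b, y a (Fin.last _) = y b (Fin.last _) := by
    intro a b
    have := hrow (Sum.inr (Sum.inl (a, b)))
    simp only [sysMat, ind] at this
    have h1 : ∑ j, y a j = ∑ j, y b j := by
      rw [hysum, hysum]
      refine sub_eq_zero.1 ?_
      rw [← Finset.sum_sub_distrib]
      refine (Finset.sum_congr rfl ?_).trans this
      intro p _
      exact ite_aux' (κ p = some a) (κ p = some b) (c p)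
    rw [Fin.sum_univ_castSucc, Fin.sum_univ_castSucc] at h1
    have h2 : ∑ l : Fin (m + c0), y a l.castSucc = ∑ l : Fin (m + c0), y b l.castSucc :=
      Finset.sum_congr rfl (fun l _ => hy1 a b l)
    linarith
  have hy : ∀ a b j, y a j = y b j := by
    intro a b j
    refine Fin.lastCases (hy2 a b) (fun l => hy1 a b l) j
  have hyzero : ∀ a j, y a j = 0 := by
    intro a j
    by_cases hjE : j ∈ E
    · -- use the last equations
      have hρj := hρ1 j hjE
      have hmem := Finset.mem_erase.1 hρj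
      have := hrow (Sum.inl (ρ j, q0, none))
      simp only [sysMat, ind, hmem.2, hq0, and_self, if_true] at this
      have h1 : y (ρ j) j = 0 := by
        refine Eq.trans ?_ this
        simp only [y]
        apply Finset.sum_congr rfl
        intro p _
        by_cases h1 : κ p = some (ρ j)
        · have h2 : κ p ≠ some q0 := by
            rw [h1]; intro h; exact hmem.1 (Option.some.inj h)
          by_cases h3 : ι p = j
          · have h4 : ι p ∈ E := by rw [h3]; exact hjE
            simp [h1, h3, hmem.1, hjE]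
          · have h4 : ¬ (ι p ∈ E ∧ κ p = some (ρ (ι p))) := by
              rintro ⟨h5, h6⟩
              rw [h1] at h6
              exact h3 (hρ2 (ι p) h5 j hjE (Option.some.inj h6).symm)
            simp [h3, h4]
        · by_cases h2 : κ p = some q0
          · have h4 : ¬ (ι p ∈ E ∧ κ p = some (ρ (ι p))) := by
              rintro ⟨h5, h6⟩
              rw [h2] at h6
              have := (Finset.mem_erase.1 (hρ1 _ h5)).1
              exact this (Option.some.inj h6).symm
            simp [h1, h4]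
          · simp [h1, h2]
      rw [hy a (ρ j), h1]
    · -- j is missing from some class
      have hj : (j : ℕ) < (r' + 1) * c0 := by
        by_contra h
        exact hjE (Finset.mem_filter.2 ⟨mem_univ _, not_lt.1 h⟩)
      have hc0 : 0 < c0 := by
        by_contra h
        have h' : (r' + 1) * c0 = 0 := by
          have : c0 = 0 := by omega
          simp [this]
        omega
      have hlt : (j : ℕ) / c0 < r' + 1 := Nat.div_lt_of_lt_mul (by rw [mul_comm]; exact hj)
      let b : Fin (r' + 1) := ⟨(j : ℕ) / c0, hlt⟩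
      rw [hy a b]
      simp only [y]
      apply Finset.sum_eq_zero
      intro p _
      rw [if_neg]
      rintro ⟨h1, h2⟩
      apply hιC p b h1
      rw [h2]
      refine Finset.mem_filter.2 ⟨mem_univ _, Nat.div_mul_le_self _ _, ?_⟩
      show (j : ℕ) < ((j : ℕ) / c0 + 1) * c0
      exact Nat.lt_mul_of_div_lt (Nat.lt_succ_self _) hc0
  funext p
  rcases hκp : κ p with _ | a
  · have := hrow (Sum.inr (Sum.inr p))
    simp only [sysMat, hκp, true_and] at this
    simpa using this
  · have := hyzero a (ι p)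
    simp only [y] at this
    rw [Finset.sum_eq_single p] at this
    · simpa [hκp] using this
    · intro p' _ hne
      rw [if_neg]
      rintro ⟨h1, h2⟩
      exact hne (hιinj p' p a h1 hκp h2)
    · intro h; exact absurd (mem_univ _) h


/-! ## The map -/

section Map

variable {N : ℕ}

/-- elementary symmetric polynomial -/
noncomputable def esym (m : ℕ) (x : Simplex N) : ℝ :=
  ∑ S ∈ (univ : Finset (Fin (N + 1))).powersetCard (m + 2), ∏ p ∈ S, (x : Fin (N + 1) → ℝ) p

/-- linear function with values `u` at the vertices -/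
noncomputable def lin (u : Fin (N + 1) → ℝ) (x : Simplex N) : ℝ :=
  ∑ p, (x : Fin (N + 1) → ℝ) p * u p

theorem coord_nonneg (x : Simplex N) (p : Fin (N + 1)) : 0 ≤ (x : Fin (N + 1) → ℝ) p := x.2.1 p

theorem coord_sum (x : Simplex N) : ∑ p, (x : Fin (N + 1) → ℝ) p = 1 := x.2.2

theorem continuous_coord (p : Fin (N + 1)) : Continuous fun x : Simplex N => (x : Fin (N + 1) → ℝ) p :=
  (continuous_apply p).comp continuous_subtype_val

theorem continuous_esym (m : ℕ) : Continuous (esym (N := N) m) := by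
  unfold esym
  exact continuous_finsetSum _ fun S _ => continuous_finsetProd _ fun p _ => continuous_coord p

theorem continuous_lin (u : Fin (N + 1) → ℝ) : Continuous (lin (N := N) u) := by
  unfold lin
  exact continuous_finsetSum _ fun p _ => (continuous_coord p).mul continuous_const

theorem isClosed_face (σ : Finset (Fin (N + 1))) : IsClosed (face σ) := by
  have : face σ = ⋂ p, ⋂ (_ : p ∉ σ), {x : Simplex N | (x : Fin (N + 1) → ℝ) p = 0} := by
    ext x; simp [face]
  rw [this]
  exact isClosed_iInter fun p => isClosed_iInter fun _ =>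
    isClosed_eq (continuous_coord p) continuous_const

theorem esym_nonneg (m : ℕ) (x : Simplex N) : 0 ≤ esym m x :=
  Finset.sum_nonneg fun _ _ => Finset.prod_nonneg fun p _ => coord_nonneg x p

theorem esym_eq_zero_of_card {m : ℕ} {x : Simplex N} {σ : Finset (Fin (N + 1))} (hx : x ∈ face σ)
    (hσ : σ.card ≤ m + 1) : esym m x = 0 := by
  apply Finset.sum_eq_zero
  intro S hS
  have hSc : S.card = m + 2 := (Finset.mem_powersetCard.1 hS).2
  obtain ⟨p, hpS, hpσ⟩ : ∃ p ∈ S, p ∉ σ := by
    by_contra hcon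
    push Not at hcon
    have := Finset.card_le_card (show S ⊆ σ from fun p hp => hcon p hp)
    omega
  exact Finset.prod_eq_zero hpS (hx p hpσ)

theorem card_support_le {m : ℕ} {x : Simplex N} (h : esym m x = 0) :
    (univ.filter fun p => (x : Fin (N + 1) → ℝ) p ≠ 0).card ≤ m + 1 := by
  by_contra hcon
  push Not at hcon
  obtain ⟨S, hS, hSc⟩ := Finset.exists_subset_card_eq (show m + 2 ≤ _ from hcon)
  have hpos : 0 < ∏ p ∈ S, (x : Fin (N + 1) → ℝ) p :=
    Finset.prod_pos fun p hp =>
      lt_of_le_of_ne (coord_nonneg x p) (Ne.symm (Finset.mem_filter.1 (hS hp)).2)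
  have hle : ∏ p ∈ S, (x : Fin (N + 1) → ℝ) p ≤ esym m x :=
    Finset.single_le_sum (f := fun S => ∏ p ∈ S, (x : Fin (N + 1) → ℝ) p)
      (fun _ _ => Finset.prod_nonneg fun p _ => coord_nonneg x p)
      (Finset.mem_powersetCard.2 ⟨Finset.subset_univ _, hSc⟩)
  linarith

/-- No coincidence point with all points in the `m`-skeleton and with the extra equations. -/
theorem no_skeleton_coincidence {r d m : ℕ} (w : Var (N + 1) d → ℝ)
    (hw : ∀ (Q : Finset (Fin r)) (κ : Fin (N + 1) → Option (Fin r)),
      (∃ w0 : Var (N + 1) d → ℝ, Inj Q κ w0) → Inj Q κ w)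
    (Q : Finset (Fin r)) (hQ : Q.Nonempty)
    (hm : r * (m + 1) ≤ (r - 1) * (d + 1) + (Q.card - 1))
    (σ : Fin r → Finset (Fin (N + 1))) (hσ : ∀ i j, i ≠ j → Disjoint (σ i) (σ j))
    (x : Fin r → Simplex N) (hx : ∀ a, x a ∈ face (σ a))
    (hg : ∀ a b l, lin (fun p => w (p, some l)) (x a) = lin (fun p => w (p, some l)) (x b))
    (hφ : ∀ a ∈ Q, ∀ b ∈ Q, lin (fun p => w (p, none)) (x a) = lin (fun p => w (p, none)) (x b))
    (hE : ∀ a, esym m (x a) = 0) : False := by
  classical
  have huniq : ∀ a b p, (x a : Fin (N + 1) → ℝ) p ≠ 0 → (x b : Fin (N + 1) → ℝ) p ≠ 0 → a = b := by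
    intro a b p ha hb
    by_contra hne
    have h1 : p ∈ σ a := by by_contra h; exact ha (hx a p h)
    have h2 : p ∈ σ b := by by_contra h; exact hb (hx b p h)
    exact Finset.disjoint_left.1 (hσ a b hne) h1 h2
  let κ : Fin (N + 1) → Option (Fin r) := fun p =>
    if h : ∃ a, (x a : Fin (N + 1) → ℝ) p ≠ 0 then some h.choose else none
  have hκ : ∀ p a, κ p = some a ↔ (x a : Fin (N + 1) → ℝ) p ≠ 0 := by
    intro p a
    constructor
    · intro h
      simp only [κ] at h
      split_ifs at h with h'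
      have := h'.choose_spec
      rw [Option.some.inj h] at this
      exact this
    · intro h
      have h' : ∃ a, (x a : Fin (N + 1) → ℝ) p ≠ 0 := ⟨a, h⟩
      simp only [κ]
      rw [dif_pos h']
      exact congrArg some (huniq _ _ p h'.choose_spec h)
  let c : Fin (N + 1) → ℝ := fun p => ∑ a, (x a : Fin (N + 1) → ℝ) p
  have hc : ∀ p a, (x a : Fin (N + 1) → ℝ) p ≠ 0 → c p = (x a : Fin (N + 1) → ℝ) p := by
    intro p a h
    simp only [c]
    apply Finset.sum_eq_single
    · intro b _ hb
      by_contra h2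
      exact hb (huniq b a p h2 h)
    · intro h; exact absurd (mem_univ _) h
  have hind : ∀ a p, ind κ a p * c p = (x a : Fin (N + 1) → ℝ) p := by
    intro a p
    by_cases h : (x a : Fin (N + 1) → ℝ) p = 0
    · have : ¬ κ p = some a := by rw [hκ]; simpa using h
      simp [ind, this, h]
    · have h1 : κ p = some a := (hκ p a).2 h
      simp [ind, h1, hc p a h]
  have hcard : ∀ a, (univ.filter (fun p => κ p = some a)).card ≤ m + 1 := by
    intro a
    have : (univ.filter (fun p => κ p = some a))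
        = univ.filter fun p => (x a : Fin (N + 1) → ℝ) p ≠ 0 := by
      ext p; simp [hκ]
    rw [this]
    exact card_support_le (hE a)
  have hInj := hw Q κ (special m Q hQ κ hm hcard)
  have hzero : c = 0 := by
    apply hInj
    funext ρ
    simp only [Matrix.mulVec, dotProduct, Pi.zero_apply]
    rcases ρ with ⟨a, b, _ | l⟩ | ⟨a, b⟩ | p'
    · simp only [sysMat]
      by_cases hab : a ∈ Q ∧ b ∈ Q
      · simp only [hab, and_self, if_true]
        have h1 : ∑ p, (ind κ a p - ind κ b p) * w (p, none) * c p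
            = lin (fun p => w (p, none)) (x a) - lin (fun p => w (p, none)) (x b) := by
          simp only [lin]
          rw [← Finset.sum_sub_distrib]
          apply Finset.sum_congr rfl
          intro p _
          rw [← hind a p, ← hind b p]
          ring
        rw [h1, hφ a hab.1 b hab.2, sub_self]
      · simp [hab]
    · simp only [sysMat]
      have h1 : ∑ p, (ind κ a p - ind κ b p) * w (p, some l) * c p
          = lin (fun p => w (p, some l)) (x a) - lin (fun p => w (p, some l)) (x b) := by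
        simp only [lin]
        rw [← Finset.sum_sub_distrib]
        apply Finset.sum_congr rfl
        intro p _
        rw [← hind a p, ← hind b p]
        ring
      rw [h1, hg a b l, sub_self]
    · simp only [sysMat]
      have h1 : ∑ p, (ind κ a p - ind κ b p) * c p
          = ∑ p, (x a : Fin (N + 1) → ℝ) p - ∑ p, (x b : Fin (N + 1) → ℝ) p := by
        rw [← Finset.sum_sub_distrib]
        apply Finset.sum_congr rfl
        intro p _
        rw [← hind a p, ← hind b p]
        ring
      rw [h1, coord_sum, coord_sum, sub_self]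
    · simp only [sysMat]
      by_cases h : κ p' = none
      · have hcp : c p' = 0 := by
          simp only [c]
          apply Finset.sum_eq_zero
          intro a _
          by_contra h2
          have := (hκ p' a).2 h2
          rw [h] at this
          exact absurd this (by simp)
        simp [h, hcp]
      · simp [h]
  obtain ⟨q0, -⟩ := hQ
  have hsum := coord_sum (x q0)
  have : ∀ p, (x q0 : Fin (N + 1) → ℝ) p = 0 := by
    intro p
    by_contra h
    have h1 := hc p q0 h
    rw [hzero] at h1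
    exact h h1.symm
  simp [this] at hsum

/-- The set of coincidences that must be avoided, for a fixed `ε`. -/
def Bad (r d m : ℕ) (w : Var (N + 1) d → ℝ) (σ : Fin r → Finset (Fin (N + 1))) (ε : ℝ) : Prop :=
  ∃ x : Fin r → Simplex N, (∀ a, x a ∈ face (σ a)) ∧
    (∀ a b l, lin (fun p => w (p, some l)) (x a) = lin (fun p => w (p, some l)) (x b)) ∧
    (∀ a b, esym m (x a) + ε * lin (fun p => w (p, none)) (x a)
      = esym m (x b) + ε * lin (fun p => w (p, none)) (x b))

theorem eventually_not_bad {r d m : ℕ} (w : Var (N + 1) d → ℝ)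
    (hw : ∀ (Q : Finset (Fin r)) (κ : Fin (N + 1) → Option (Fin r)),
      (∃ w0 : Var (N + 1) d → ℝ, Inj Q κ w0) → Inj Q κ w)
    (Q : Finset (Fin r)) (hQ : Q.Nonempty)
    (hm : r * (m + 1) ≤ (r - 1) * (d + 1) + (Q.card - 1))
    (σ : Fin r → Finset (Fin (N + 1))) (hσ : ∀ i j, i ≠ j → Disjoint (σ i) (σ j))
    (hσQ : ∀ a ∈ Q, (σ a).card ≤ m + 1) :
    ∀ᶠ ε in nhdsWithin (0 : ℝ) (Set.Ioi 0), ¬ Bad r d m w σ ε := by
  classical
  have : CompactSpace (Simplex N) := isCompact_iff_compactSpace.1 (isCompact_stdSimplex ℝ (Fin (N + 1)))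
  let φ : Simplex N → ℝ := lin (fun p => w (p, none))
  obtain ⟨T, hT⟩ : ∃ T, ∀ x ∈ (Set.univ : Set (Simplex N)), ‖φ x‖ ≤ T :=
    isCompact_univ.exists_bound_of_continuousOn (continuous_lin _).continuousOn
  let P : Set (Fin r → Simplex N) := {x | (∀ a, x a ∈ face (σ a)) ∧
    (∀ a b l, lin (fun p => w (p, some l)) (x a) = lin (fun p => w (p, some l)) (x b)) ∧
    (∀ a ∈ Q, ∀ b ∈ Q, φ (x a) = φ (x b))}
  have hPclosed : IsClosed P := by
    have h1 : IsClosed {x : Fin r → Simplex N | ∀ a, x a ∈ face (σ a)} := by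
      simp only [Set.ofPred_forall]
      exact isClosed_iInter fun a => (isClosed_face (σ a)).preimage (continuous_apply a)
    have h2 : IsClosed {x : Fin r → Simplex N | ∀ a b l,
        lin (fun p => w (p, some l)) (x a) = lin (fun p => w (p, some l)) (x b)} := by
      simp only [Set.ofPred_forall]
      exact isClosed_iInter fun a => isClosed_iInter fun b => isClosed_iInter fun l =>
        isClosed_eq ((continuous_lin _).comp (continuous_apply a))
          ((continuous_lin _).comp (continuous_apply b))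
    have h3 : IsClosed {x : Fin r → Simplex N | ∀ a ∈ Q, ∀ b ∈ Q, φ (x a) = φ (x b)} := by
      simp only [Set.ofPred_forall]
      exact isClosed_iInter fun a => isClosed_iInter fun _ => isClosed_iInter fun b =>
        isClosed_iInter fun _ =>
          isClosed_eq ((continuous_lin _).comp (continuous_apply a))
            ((continuous_lin _).comp (continuous_apply b))
    exact h1.inter (h2.inter h3)
  have hPcompact : IsCompact P := hPclosed.isCompact
  let F : (Fin r → Simplex N) → ℝ := fun x => ∑ a, esym m (x a)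
  have hFcont : Continuous F :=
    continuous_finsetSum _ fun a _ => (continuous_esym m).comp (continuous_apply a)
  obtain ⟨q0, hq0⟩ := hQ
  have hBadP : ∀ ε : ℝ, 0 < ε → ∀ x : Fin r → Simplex N, (∀ a, x a ∈ face (σ a)) →
    (∀ a b l, lin (fun p => w (p, some l)) (x a) = lin (fun p => w (p, some l)) (x b)) →
    (∀ a b, esym m (x a) + ε * lin (fun p => w (p, none)) (x a)
      = esym m (x b) + ε * lin (fun p => w (p, none)) (x b)) → x ∈ P := by
    intro ε hε x hx1 hx2 hx3
    refine ⟨hx1, hx2, ?_⟩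
    intro a ha b hb
    have h := hx3 a b
    rw [esym_eq_zero_of_card (hx1 a) (hσQ a ha), esym_eq_zero_of_card (hx1 b) (hσQ b hb)] at h
    simp only [zero_add] at h
    exact mul_left_cancel₀ hε.ne' h
  rcases P.eq_empty_or_nonempty with hP | hP
  · filter_upwards [self_mem_nhdsWithin] with ε hε
    rintro ⟨x, hx1, hx2, hx3⟩
    have := hBadP ε hε x hx1 hx2 hx3
    rw [hP] at this
    exact this
  · obtain ⟨x0, hx0, hmin⟩ := hPcompact.exists_isMinOn hP hFcont.continuousOn
    have hF0 : 0 < F x0 := by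
      rcases lt_or_eq_of_le (Finset.sum_nonneg fun a (_ : a ∈ univ) => esym_nonneg m (x0 a)) with h | h
      · exact h
      · exfalso
        have hall : ∀ a, esym m (x0 a) = 0 := by
          intro a
          exact (Finset.sum_eq_zero_iff_of_nonneg fun a _ => esym_nonneg m (x0 a)).1 h.symm a
            (mem_univ _)
        exact no_skeleton_coincidence w hw Q ⟨q0, hq0⟩ hm σ hσ x0 hx0.1 hx0.2.1 hx0.2.2 hall
    have hT0 : 0 ≤ T := (norm_nonneg _).trans (hT (x0 q0) (Set.mem_univ _))
    have hpos : 0 < F x0 / (2 * r * T + 1) := by positivity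
    filter_upwards [Ioo_mem_nhdsGT hpos] with ε hε
    rintro ⟨x, hx1, hx2, hx3⟩
    have hxP := hBadP ε hε.1 x hx1 hx2 hx3
    have h1 : F x0 ≤ F x := hmin hxP
    have h2 : ∀ a, esym m (x a) ≤ ε * (2 * T) := by
      intro a
      have h := hx3 a q0
      rw [esym_eq_zero_of_card (hx1 q0) (hσQ q0 hq0), zero_add] at h
      have h3 := hT (x a) (Set.mem_univ _)
      have h4 := hT (x q0) (Set.mem_univ _)
      rw [Real.norm_eq_abs, abs_le] at h3 h4
      have h5 : esym m (x a) = ε * (φ (x q0) - φ (x a)) := by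
        simp only [φ]; linarith
      rw [h5]
      exact mul_le_mul_of_nonneg_left (by linarith [h3.1, h4.2]) hε.1.le
    have h3 : F x ≤ r * (ε * (2 * T)) := by
      calc F x ≤ ∑ _a : Fin r, ε * (2 * T) := Finset.sum_le_sum fun a _ => h2 a
        _ = r * (ε * (2 * T)) := by simp
    have h4 : ε * (2 * r * T + 1) < F x0 := by
      have := hε.2
      rwa [lt_div_iff₀ (by positivity)] at this
    have h5 : 0 < ε := hε.1
    nlinarith

/-- The map `(g, e_{m+2} + ε φ)`. -/
noncomputable def theMap {d : ℕ} (m : ℕ) (w : Var (N + 1) d → ℝ) (ε : ℝ) :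
    C(Simplex N, EuclideanSpace ℝ (Fin (d + 1))) where
  toFun x := (EuclideanSpace.equiv (Fin (d + 1)) ℝ).symm (fun j =>
    if h : (j : ℕ) < d then lin (fun p => w (p, some ⟨j, h⟩)) x
    else esym m x + ε * lin (fun p => w (p, none)) x)
  continuous_toFun := by
    refine (EuclideanSpace.equiv (Fin (d + 1)) ℝ).symm.continuous.comp (continuous_pi fun j => ?_)
    by_cases h : (j : ℕ) < d
    · simp only [h, dif_pos]
      exact continuous_lin _
    · simp only [h, dif_neg, not_false_iff]
      exact (continuous_esym m).add (continuous_const.mul (continuous_lin _))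

theorem theMap_eq {d : ℕ} {m : ℕ} {w : Var (N + 1) d → ℝ} {ε : ℝ} {x y : Simplex N}
    (h : theMap m w ε x = theMap m w ε y) :
    (∀ l, lin (fun p => w (p, some l)) x = lin (fun p => w (p, some l)) y) ∧
    esym m x + ε * lin (fun p => w (p, none)) x = esym m y + ε * lin (fun p => w (p, none)) y := by
  have h' := (EuclideanSpace.equiv (Fin (d + 1)) ℝ).symm.injective h
  constructor
  · intro l
    have := congrFun h' l.castSucc
    simpa using this
  · have := congrFun h' (Fin.last d)
    simpa using this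

end Map

/-- **Main theorem.** For all `r`, `d ≥ 1`, `m` and `N` there is a continuous map
`Δ^N → ℝ^d` for which no `r` pairwise disjoint faces have a common image point as soon as at least
`q ≥ 1` of them have dimension at most `m`, where `r (m + 1) ≤ (r - 1) d + (q - 1)`. -/
theorem exists_map_avoiding (r d m N : ℕ) :
    ∃ f : C(Simplex N, EuclideanSpace ℝ (Fin (d + 1))),
      ∀ (Q : Finset (Fin r)) (σ : Fin r → Finset (Fin (N + 1))), Q.Nonempty →
        r * (m + 1) ≤ (r - 1) * (d + 1) + (Q.card - 1) →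
        (∀ i j, i ≠ j → Disjoint (σ i) (σ j)) → (∀ a ∈ Q, (σ a).card ≤ m + 1) →
        ¬ (⋂ i, f '' face (σ i)).Nonempty := by
  classical
  obtain ⟨w, hw⟩ := exists_good r (N + 1) d
  have hev : ∀ᶠ ε in nhdsWithin (0 : ℝ) (Set.Ioi 0),
      ∀ qs : Finset (Fin r) × (Fin r → Finset (Fin (N + 1))), qs.1.Nonempty →
        r * (m + 1) ≤ (r - 1) * (d + 1) + (qs.1.card - 1) →
        (∀ i j, i ≠ j → Disjoint (qs.2 i) (qs.2 j)) → (∀ a ∈ qs.1, (qs.2 a).card ≤ m + 1) →
        ¬ Bad r d m w qs.2 ε := by
    rw [Filter.eventually_all]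
    rintro ⟨Q, σ⟩
    by_cases h : Q.Nonempty ∧ r * (m + 1) ≤ (r - 1) * (d + 1) + (Q.card - 1) ∧
      (∀ i j, i ≠ j → Disjoint (σ i) (σ j)) ∧ (∀ a ∈ Q, (σ a).card ≤ m + 1)
    · filter_upwards [eventually_not_bad w hw Q h.1 h.2.1 σ h.2.2.1 h.2.2.2] with ε hε
      intro _ _ _ _
      exact hε
    · refine Filter.Eventually.of_forall fun ε h1 h2 h3 h4 => ?_
      exact absurd ⟨h1, h2, h3, h4⟩ h
  obtain ⟨ε, hε⟩ := hev.exists
  refine ⟨theMap m w ε, fun Q σ hQ hm hσ hσQ => ?_⟩
  rintro ⟨z, hz⟩
  rw [Set.mem_iInter] at hz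
  choose x hx1 hx2 using hz
  apply hε (Q, σ) hQ hm hσ hσQ
  refine ⟨x, hx1, fun a b l => ?_, fun a b => ?_⟩
  · exact (theMap_eq ((hx2 a).trans (hx2 b).symm)).1 l
  · exact (theMap_eq ((hx2 a).trans (hx2 b).symm)).2

/-- A tuple with many small entries is not prescribable. -/
theorem not_prescribable {r d m : ℕ} (D : Fin r → ℤ)
    (hQ : (univ.filter fun i => D i ≤ (m : ℤ)).Nonempty)
    (hm : r * (m + 1) ≤ (r - 1) * (d + 1) + ((univ.filter fun i => D i ≤ (m : ℤ)).card - 1)) :
    ¬ Prescribable (d + 1) D := by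
  rintro ⟨N, hN⟩
  obtain ⟨f, hf⟩ := exists_map_avoiding r d m N
  obtain ⟨σ, ⟨_, h2, h3⟩, h4⟩ := hN f
  refine hf _ σ hQ hm h2 ?_ h3
  intro a ha
  have h5 := (Finset.mem_filter.1 ha).2
  have h6 := h4 a
  unfold faceDim at h6
  have : ((σ a).card : ℤ) ≤ (m : ℤ) + 1 := by linarith
  exact_mod_cast this

/-- Necessary condition: a prescribable tuple dominates the balanced tuple of sum `(r-1)d`. -/
theorem necessary (d r : ℕ) (hd : 1 ≤ d) (hr : 1 ≤ r) (D : Fin r → ℤ) (hD : Prescribable d D) :
    (∀ i, (((r - 1) * d / r : ℕ) : ℤ) ≤ D i) ∧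
    (univ.filter fun i => D i = (((r - 1) * d / r : ℕ) : ℤ)).card + (r - 1) * d % r ≤ r := by
  classical
  obtain ⟨d', rfl⟩ : ∃ d', d = d' + 1 := ⟨d - 1, by omega⟩
  have hdiv := Nat.div_add_mod ((r - 1) * (d' + 1)) r
  have hmod := Nat.mod_lt ((r - 1) * (d' + 1)) (show r > 0 by omega)
  have hfirst : ∀ i, (((r - 1) * (d' + 1) / r : ℕ) : ℤ) ≤ D i := by
    by_contra hcon
    push Not at hcon
    obtain ⟨i, hi⟩ := hcon
    have hDi : 0 ≤ D i := by
      obtain ⟨N, hN⟩ := hD
      obtain ⟨σ, ⟨h1, -, -⟩, h4⟩ := hN (ContinuousMap.const _ 0)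
      rw [← h4 i]
      unfold faceDim
      have := Finset.card_pos.2 (h1 i)
      omega
    obtain ⟨m, hm⟩ : ∃ m : ℕ, (r - 1) * (d' + 1) / r = m + 1 :=
      ⟨(r - 1) * (d' + 1) / r - 1, by omega⟩
    refine not_prescribable (m := m) D ⟨i, Finset.mem_filter.2 ⟨mem_univ _, ?_⟩⟩ ?_ hD
    · rw [hm] at hi
      push_cast at hi
      omega
    · rw [hm] at hdiv
      omega
  refine ⟨hfirst, ?_⟩
  by_contra hcon
  push Not at hcon
  set a := (r - 1) * (d' + 1) / r with ha
  have heq : (univ.filter fun i => D i = (a : ℤ)) = univ.filter fun i => D i ≤ (a : ℤ) := by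
    ext i
    simp only [Finset.mem_filter, mem_univ, true_and]
    exact ⟨fun h => h.le, fun h => le_antisymm h (hfirst i)⟩
  rw [heq] at hcon
  have hpos : 0 < (univ.filter fun i => D i ≤ (a : ℤ)).card := by omega
  refine not_prescribable (m := a) D (Finset.card_pos.1 hpos) ?_ hD
  have : r * (a + 1) = r * a + r := by ring
  omega

theorem family (r k e : ℕ) (hr : 3 ≤ r) (hk : 1 ≤ k) (he : 1 ≤ e) (her : e ≤ r - 2) :
    ∃ D : Fin r → ℤ, StronglyAdmissible (r * k + e) D ∧ ¬ Prescribable (r * k + e) D := by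
  classical
  let a : ℕ := (r - 1) * k + (e - 1)
  refine ⟨fun i => if (i : ℕ) < e + 1 then (a : ℤ) else ((r * k + e : ℕ) : ℤ), ⟨?_, ?_⟩, ?_⟩
  · intro i
    have hr0 : (0 : ℚ) < r := by
      have : 0 < r := by omega
      exact_mod_cast this
    have hrk : (r - 1) * k ≤ r * k := Nat.mul_le_mul_right _ (by omega)
    have hacast : (a : ℚ) = ((r : ℚ) - 1) * k + ((e : ℚ) - 1) := by
      simp only [a]
      rw [Nat.cast_add, Nat.cast_mul, Nat.cast_sub (by omega : 1 ≤ r), Nat.cast_sub he]
      simp
    have he0 : (0 : ℚ) ≤ (e : ℚ) - 1 := by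
      have : (1 : ℚ) ≤ e := by exact_mod_cast he
      linarith
    have key : (((r : ℚ) - 1) / (r : ℚ)) * (((r * k + e : ℕ) : ℚ) - 1) ≤ (a : ℚ) := by
      rw [hacast, div_mul_eq_mul_div, div_le_iff₀ hr0]
      push_cast
      nlinarith
    have hale : a ≤ r * k + e := by simp only [a]; omega
    by_cases h : (i : ℕ) < e + 1
    · simp only [h, if_true]
      exact ⟨by exact_mod_cast key, by exact_mod_cast hale⟩
    · simp only [h, if_false]
      refine ⟨key.trans ?_, le_refl _⟩
      exact_mod_cast hale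
  · have hsum : ∑ i : Fin r, (((r * k + e : ℕ) : ℤ) - (if (i : ℕ) < e + 1 then (a : ℤ)
        else ((r * k + e : ℕ) : ℤ))) = ((e + 1 : ℕ) : ℤ) * ((k : ℤ) + 1) := by
      have hda : ((r * k + e : ℕ) : ℤ) - (a : ℤ) = (k : ℤ) + 1 := by
        simp only [a]
        rw [Nat.cast_add, Nat.cast_add, Nat.cast_mul, Nat.cast_mul, Nat.cast_sub (by omega : 1 ≤ r),
          Nat.cast_sub he]
        push_cast; ring
      have : ∀ i : Fin r, (((r * k + e : ℕ) : ℤ) - (if (i : ℕ) < e + 1 then (a : ℤ)
        else ((r * k + e : ℕ) : ℤ))) = if (i : ℕ) < e + 1 then (k : ℤ) + 1 else 0 := by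
        intro i
        split_ifs
        · exact hda
        · ring
      rw [Finset.sum_congr rfl (fun i _ => this i), ← Finset.sum_filter, Finset.sum_const]
      have hcard : (univ.filter fun i : Fin r => (i : ℕ) < e + 1).card = e + 1 := by
        rw [Fin.card_filter_val_lt]
        omega
      rw [hcard]
      simp
    rw [hsum]
    obtain ⟨s, rfl⟩ : ∃ s, r = e + 2 + s := ⟨r - (e + 2), by omega⟩
    push_cast
    have hk' : (1 : ℤ) ≤ k := by exact_mod_cast hk
    have hs : (0 : ℤ) ≤ (s : ℤ) * k := by positivity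
    nlinarith
  · intro hP
    obtain ⟨h1, h2⟩ := necessary (r * k + e) r (by omega) (by omega) _ hP
    have hval : (r - 1) * (r * k + e) = r * a + (r - e) := by
      simp only [a]
      obtain ⟨s, rfl⟩ : ∃ s, r = e + 2 + s := ⟨r - (e + 2), by omega⟩
      obtain ⟨e', rfl⟩ : ∃ e', e = e' + 1 := ⟨e - 1, by omega⟩
      have e1 : e' + 1 + 2 + s - 1 = e' + 2 + s := by omega
      have e2 : e' + 1 + 2 + s - (e' + 1) = 2 + s := by omega
      have e3 : e' + 1 - 1 = e' := by omega
      rw [e1, e2, e3]
      ring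
    have hdiv : (r - 1) * (r * k + e) / r = a := by
      rw [hval, Nat.mul_add_div (by omega), Nat.div_eq_of_lt (by omega), add_zero]
    have hmod : (r - 1) * (r * k + e) % r = r - e := by
      rw [hval, Nat.mul_add_mod, Nat.mod_eq_of_lt (by omega)]
    rw [hdiv, hmod] at h2
    have hsub : (univ.filter fun i : Fin r => (i : ℕ) < e + 1) ⊆
        univ.filter fun i : Fin r => (if (i : ℕ) < e + 1 then (a : ℤ) else ((r * k + e : ℕ) : ℤ)) = (a : ℤ) := by
      intro i hi
      have := (Finset.mem_filter.1 hi).2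
      exact Finset.mem_filter.2 ⟨mem_univ _, if_pos this⟩
    have hcard : (univ.filter fun i : Fin r => (i : ℕ) < e + 1).card = e + 1 := by
      rw [Fin.card_filter_val_lt]
      omega
    have := Finset.card_le_card hsub
    rw [hcard] at this
    omega


end Pool.Agent.H7.TV
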